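import Mathlib

/-!
# Powers of extremal ideals: the Scarf complex is not always a resolution

For `q ≥ 6` and `r ≥ 5` the Scarf complex of the `r`-th power of the extremal ideal on `q`
generators does not support a free resolution of that power.  For `q = 6`, `r = 5` the five
generators with exponents `000113`, `010112`, `100112`, `110111`, `221000` are all the generators
dividing their least common multiple, and the Scarf complex restricted to them is a triangulated
two-sphere.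
-/

set_option autoImplicit false

namespace Pool.Agent.Results.MP_0a8151_al.ScarfFails

open MvPolynomial Finset

universe u v

section general

variable {σ : Type v} {N : ℕ}

/-- `m_τ`: the exponent vector of the least common multiple of the monomials with exponent
vectors `m i`, `i ∈ τ` -/
noncomputable def lab (m : Fin N → (σ →₀ ℕ)) (τ : Finset (Fin N)) : σ →₀ ℕ := τ.sup m

/-- the Scarf complex: the nonempty faces of the Taylor simplex whose label is shared by no other
nonempty face -/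
def scarf (m : Fin N → (σ →₀ ℕ)) : Set (Finset (Fin N)) :=
  {τ | τ.Nonempty ∧ ∀ ρ : Finset (Fin N), ρ.Nonempty → lab m ρ = lab m τ → ρ = τ}

variable (k : Type u) [Field k]

/-- the exponent vector `u` is that of a minimal monomial generator of `I` -/
def IsMinGen (I : Ideal (MvPolynomial σ k)) (u : σ →₀ ℕ) : Prop :=
  monomial u (1 : k) ∈ I ∧ ∀ w : σ →₀ ℕ, monomial w (1 : k) ∈ I → w ≤ u → w = u

/-- `m` lists the exponent vectors of the minimal monomial generators of `I`, without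
repetition -/
def Enumerates (I : Ideal (MvPolynomial σ k)) (m : Fin N → (σ →₀ ℕ)) : Prop :=
  Function.Injective m ∧ Set.range m = {u | IsMinGen k I u}

/-- the free module on the `n`-dimensional faces of `Δ` -/
abbrev Chains (σ : Type v) (Δ : Set (Finset (Fin N))) (n : ℕ) : Type (max u v) :=
  {τ : Finset (Fin N) // τ ∈ Δ ∧ τ.card = n + 1} →₀ MvPolynomial σ k

open Classical in
/-- the basis vector `e_τ` of an `n`-dimensional face `τ` of `Δ` -/
noncomputable def bas (σ : Type v) (Δ : Set (Finset (Fin N))) (n : ℕ) (τ : Finset (Fin N)) :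
    Chains k σ Δ n :=
  if h : τ ∈ Δ ∧ τ.card = n + 1 then Finsupp.single ⟨τ, h⟩ 1 else 0

/-- the homogenized differential `e_τ ↦ ∑_{j ∈ τ} ± (m_τ / m_{τ∖j}) e_{τ∖j}` -/
noncomputable def bdry (m : Fin N → (σ →₀ ℕ)) (Δ : Set (Finset (Fin N))) (n : ℕ) :
    Chains k σ Δ (n + 1) →ₗ[MvPolynomial σ k] Chains k σ Δ n :=
  Finsupp.linearCombination (MvPolynomial σ k) (fun τ =>
    ∑ j ∈ τ.1, ((-1 : MvPolynomial σ k) ^ (τ.1.filter (fun i => i < j)).card *
      monomial (lab m τ.1 - lab m (τ.1.erase j)) 1) • bas k σ Δ n (τ.1.erase j))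

/-- the augmentation `e_{i} ↦ m_i` -/
noncomputable def augm (m : Fin N → (σ →₀ ℕ)) (Δ : Set (Finset (Fin N))) :
    Chains k σ Δ 0 →ₗ[MvPolynomial σ k] MvPolynomial σ k :=
  Finsupp.linearCombination (MvPolynomial σ k) (fun τ => monomial (lab m τ.1) 1)

/-- the complex `Δ` labelled by `m` supports a free resolution of the ideal `I` -/
def SupportsResolution (m : Fin N → (σ →₀ ℕ)) (Δ : Set (Finset (Fin N)))
    (I : Ideal (MvPolynomial σ k)) : Prop :=
  LinearMap.range (augm k m Δ) = I ∧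
  Function.Exact (bdry k m Δ 0) (augm k m Δ) ∧
  ∀ n : ℕ, Function.Exact (bdry k m Δ (n + 1)) (bdry k m Δ n)

end general

/-- the index set of the variables `x_A`: the nonempty subsets of `[q]` -/
abbrev Var (q : ℕ) : Type := {A : Finset (Fin q) // A.Nonempty}

/-- `ε_i`: the product of the variables `x_A` with `i ∈ A` -/
noncomputable def eps (k : Type u) [Field k] (q : ℕ) (i : Fin q) : MvPolynomial (Var q) k :=
  ∏ A ∈ (univ : Finset (Var q)).filter (fun A => i ∈ A.1), X A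

/-- the extremal ideal on `q` generators -/
noncomputable def extremalIdeal (k : Type u) [Field k] (q : ℕ) :
    Ideal (MvPolynomial (Var q) k) :=
  Ideal.span (Set.range (eps k q))

/-! ### General facts -/

section facts

variable {σ : Type v} {N : ℕ} {m : Fin N → (σ →₀ ℕ)}

lemma lab_mono {τ ρ : Finset (Fin N)} (h : τ ⊆ ρ) : lab m τ ≤ lab m ρ := Finset.sup_mono h

lemma le_lab {τ : Finset (Fin N)} {i : Fin N} (h : i ∈ τ) : m i ≤ lab m τ := Finset.le_sup h

lemma lab_le {τ : Finset (Fin N)} {w : σ →₀ ℕ} (h : ∀ i ∈ τ, m i ≤ w) : lab m τ ≤ w :=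
  Finset.sup_le h

lemma lab_apply_le {τ : Finset (Fin N)} {A : σ} {n : ℕ} (h : ∀ i ∈ τ, m i A ≤ n) :
    lab m τ A ≤ n := by
  classical
  induction τ using Finset.induction_on with
  | empty => simp [lab, bot_eq_zero]
  | insert a s ha ih =>
    have h1 : lab m (insert a s) = m a ⊔ lab m s := by simp [lab, Finset.sup_insert]
    rw [h1, Finsupp.sup_apply]
    exact sup_le (h a (by simp)) (ih fun i hi => h i (by simp [hi]))

lemma scarf_of {τ : Finset (Fin N)} (hne : τ.Nonempty) (h1 : ∀ i, m i ≤ lab m τ → i ∈ τ)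
    (h2 : ∀ i ∈ τ, ¬ m i ≤ lab m (τ.erase i)) : τ ∈ scarf m := by
  refine ⟨hne, fun ρ _ hρ => ?_⟩
  have hsub : ρ ⊆ τ := fun i hi => h1 i (hρ ▸ le_lab hi)
  refine Finset.Subset.antisymm hsub fun i hi => ?_
  by_contra hni
  have h3 : ρ ⊆ τ.erase i := fun j hj => Finset.mem_erase.2 ⟨fun h => hni (h ▸ hj), hsub hj⟩
  exact h2 i hi ((le_lab hi).trans (hρ ▸ lab_mono h3))

lemma not_scarf_insert {τ : Finset (Fin N)} {i : Fin N} (hi : i ∉ τ) (h : m i ≤ lab m τ) :
    τ ∉ scarf m := by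
  classical
  intro hs
  have h1 : lab m (insert i τ) = lab m τ := by
    have : lab m (insert i τ) = m i ⊔ lab m τ := by simp [lab, Finset.sup_insert]
    rw [this]; exact sup_eq_right.2 h
  have h2 := hs.2 (insert i τ) ⟨i, by simp⟩ h1
  exact hi (h2 ▸ Finset.mem_insert_self i τ)

lemma not_scarf_erase {τ : Finset (Fin N)} {i j : Fin N} (hi : i ∈ τ) (hj : j ∈ τ) (hij : j ≠ i)
    (h : m i ≤ lab m (τ.erase i)) : τ ∉ scarf m := by
  intro hs
  have h1 : lab m (τ.erase i) = lab m τ := by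
    refine le_antisymm (lab_mono (Finset.erase_subset _ _)) (lab_le fun l hl => ?_)
    by_cases hli : l = i
    · exact hli ▸ h
    · exact le_lab (Finset.mem_erase.2 ⟨hli, hl⟩)
  have h2 := hs.2 (τ.erase i) ⟨j, Finset.mem_erase.2 ⟨hij, hj⟩⟩ h1
  have : i ∈ τ.erase i := by rw [h2]; exact hi
  simp at this

/-- nonempty subfaces of Scarf faces are Scarf faces -/
lemma scarf_down {τ ρ : Finset (Fin N)} (hτ : τ ∈ scarf m) (hne : ρ.Nonempty) (h : ρ ⊆ τ) :
    ρ ∈ scarf m := by
  classical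
  have hmin : ∀ i ∈ τ, ∀ j ∈ τ, j ≠ i → ¬ m i ≤ lab m (τ.erase i) := by
    intro i hi j hj hij hle
    exact not_scarf_erase hi hj hij hle hτ
  by_cases hcard : ∃ i ∈ τ, ∀ j ∈ τ, j = i
  · obtain ⟨i, hi, hall⟩ := hcard
    have : ρ = τ := by
      refine Finset.Subset.antisymm h fun j hj => ?_
      obtain ⟨l, hl⟩ := hne
      rw [hall j hj, ← hall l (h hl)]; exact hl
    rw [this]; exact hτ
  · push Not at hcard
    refine scarf_of hne (fun i hi => ?_) (fun i hi hle => ?_)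
    · by_contra hni
      by_cases hiτ : i ∈ τ
      · obtain ⟨j, hj, hji⟩ := hcard i hiτ
        refine hmin i hiτ j hj hji (hi.trans (lab_mono fun l hl => ?_))
        exact Finset.mem_erase.2 ⟨fun e => hni (e ▸ hl), h hl⟩
      · exact not_scarf_insert hiτ (hi.trans (lab_mono h)) hτ
    · obtain ⟨j, hj, hji⟩ := hcard i (h hi)
      exact hmin i (h hi) j hj hji (hle.trans (lab_mono (Finset.erase_subset_erase _ h)))

end facts

/-! ### The strand of a fixed degree -/

section strand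

variable {k : Type u} [Field k] {σ : Type v} {N : ℕ} {m : Fin N → (σ →₀ ℕ)}

/-- homogenized multiple of a basis vector, of total degree `M` -/
noncomputable def xs (k : Type u) [Field k] (m : Fin N → (σ →₀ ℕ)) (M : σ →₀ ℕ) (n : ℕ)
    (τ : Finset (Fin N)) : Chains k σ (scarf m) n :=
  (monomial (M - lab m τ) (1 : k)) • bas k σ (scarf m) n τ

lemma bdry_xs (M : σ →₀ ℕ) (n : ℕ) (τ : Finset (Fin N)) (hτ : τ ∈ scarf m)
    (hc : τ.card = n + 1 + 1) (hM : lab m τ ≤ M) :
    bdry k m (scarf m) n (xs k m M (n + 1) τ) =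
      ∑ j ∈ τ, ((-1 : MvPolynomial σ k) ^ (τ.filter (fun i => i < j)).card) •
        xs k m M n (τ.erase j) := by
  classical
  unfold xs
  rw [map_smul]
  have h1 : bas k σ (scarf m) (n + 1) τ = Finsupp.single ⟨τ, hτ, hc⟩ 1 := by
    unfold bas; rw [dif_pos ⟨hτ, hc⟩]
  rw [h1]
  unfold bdry
  rw [Finsupp.linearCombination_single, one_smul, Finset.smul_sum]
  refine Finset.sum_congr rfl fun j hj => ?_
  rw [smul_smul, smul_smul]
  congr 1
  rw [mul_left_comm, monomial_mul, one_mul]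
  congr 3
  exact tsub_add_tsub_cancel hM (lab_mono (Finset.erase_subset _ _))

/-- orientation sign of a pair -/
noncomputable def tt (σ : Type v) (k : Type u) [Field k] (x y : Fin N) : MvPolynomial σ k :=
  if x < y then 1 else -1

lemma tt_swap {x y : Fin N} (h : x ≠ y) : tt σ k y x = - tt σ k x y := by
  unfold tt
  rcases lt_trichotomy x y with h1 | h1 | h1
  · simp [h1, not_lt.2 h1.le]
  · exact absurd h1 h
  · simp [h1, not_lt.2 h1.le]

/-- oriented edge -/
noncomputable def EE (k : Type u) [Field k] (m : Fin N → (σ →₀ ℕ)) (M : σ →₀ ℕ) (x y : Fin N) :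
    Chains k σ (scarf m) 1 := tt σ k x y • xs k m M 1 {x, y}

lemma EE_swap (M : σ →₀ ℕ) {x y : Fin N} (h : x ≠ y) : EE k m M y x = - EE k m M x y := by
  unfold EE
  rw [tt_swap h, Finset.pair_comm, neg_smul]

/-- oriented triangle -/
noncomputable def TT (k : Type u) [Field k] (m : Fin N → (σ →₀ ℕ)) (M : σ →₀ ℕ)
    (x y z : Fin N) : Chains k σ (scarf m) 2 :=
  (tt σ k x y * tt σ k y z * tt σ k x z) • xs k m M 2 {x, y, z}

lemma bdry_TT (M : σ →₀ ℕ) {x y z : Fin N} (hxy : x ≠ y) (hyz : y ≠ z) (hxz : x ≠ z)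
    (hτ : ({x, y, z} : Finset (Fin N)) ∈ scarf m) (hM : lab m {x, y, z} ≤ M) :
    bdry k m (scarf m) 1 (TT k m M x y z) = EE k m M y z - EE k m M x z + EE k m M x y := by
  classical
  unfold TT
  rw [map_smul, bdry_xs M 1 {x, y, z} hτ (by
    rw [Finset.card_insert_of_notMem (by simp [hxy, hxz]), Finset.card_pair hyz]) hM]
  rw [Finset.sum_insert (by simp [hxy, hxz]), Finset.sum_insert (by simp [hyz]),
    Finset.sum_singleton]
  have e1 : ({x, y, z} : Finset (Fin N)).erase x = {y, z} := by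
    ext w; simp only [Finset.mem_erase, Finset.mem_insert, Finset.mem_singleton]
    constructor
    · rintro ⟨h1, h2 | h2 | h2⟩
      · exact absurd h2 h1
      · exact Or.inl h2
      · exact Or.inr h2
    · rintro (h | h)
      · exact ⟨by rw [h]; exact hxy.symm, by tauto⟩
      · exact ⟨by rw [h]; exact hxz.symm, by tauto⟩
  have e2 : ({x, y, z} : Finset (Fin N)).erase y = {x, z} := by
    ext w; simp only [Finset.mem_erase, Finset.mem_insert, Finset.mem_singleton]
    constructor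
    · rintro ⟨h1, h2 | h2 | h2⟩
      · exact Or.inl h2
      · exact absurd h2 h1
      · exact Or.inr h2
    · rintro (h | h)
      · exact ⟨by rw [h]; exact hxy, by tauto⟩
      · exact ⟨by rw [h]; exact hyz.symm, by tauto⟩
  have e3 : ({x, y, z} : Finset (Fin N)).erase z = {x, y} := by
    ext w; simp only [Finset.mem_erase, Finset.mem_insert, Finset.mem_singleton]
    constructor
    · rintro ⟨h1, h2 | h2 | h2⟩
      · exact Or.inl h2
      · exact Or.inr h2
      · exact absurd h2 h1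
    · rintro (h | h)
      · exact ⟨by rw [h]; exact hxz, by tauto⟩
      · exact ⟨by rw [h]; exact hyz, by tauto⟩
  rw [e1, e2, e3]
  have c1 : (-1 : MvPolynomial σ k) ^ (({x, y, z} : Finset (Fin N)).filter (fun i => i < x)).card
      = tt σ k x y * tt σ k x z := by
    rw [Finset.filter_insert, Finset.filter_insert, Finset.filter_singleton]
    unfold tt
    rcases lt_or_gt_of_ne hxy with h1 | h1 <;> rcases lt_or_gt_of_ne hxz with h2 | h2 <;>
      simp [h1, h2, not_lt.2 h1.le, not_lt.2 h2.le, hyz]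
  have c2 : (-1 : MvPolynomial σ k) ^ (({x, y, z} : Finset (Fin N)).filter (fun i => i < y)).card
      = - (tt σ k x y * tt σ k y z) := by
    rw [Finset.filter_insert, Finset.filter_insert, Finset.filter_singleton]
    unfold tt
    rcases lt_or_gt_of_ne hxy with h1 | h1 <;> rcases lt_or_gt_of_ne hyz with h2 | h2 <;>
      simp [h1, h2, not_lt.2 h1.le, not_lt.2 h2.le, hxz]
  have c3 : (-1 : MvPolynomial σ k) ^ (({x, y, z} : Finset (Fin N)).filter (fun i => i < z)).card
      = tt σ k x z * tt σ k y z := by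
    rw [Finset.filter_insert, Finset.filter_insert, Finset.filter_singleton]
    unfold tt
    rcases lt_or_gt_of_ne hxz with h1 | h1 <;> rcases lt_or_gt_of_ne hyz with h2 | h2 <;>
      simp [h1, h2, not_lt.2 h1.le, not_lt.2 h2.le, hxy]
  have s1 : ∀ a b : Fin N, tt σ k a b * tt σ k a b = 1 := by
    intro a b; unfold tt; split_ifs <;> simp
  rw [c1, c2, c3]
  unfold EE
  rw [smul_add, smul_add, smul_smul, smul_smul, smul_smul]
  have g1 : tt σ k x y * tt σ k y z * tt σ k x z * (tt σ k x y * tt σ k x z) = tt σ k y z := by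
    linear_combination (tt σ k y z * tt σ k x z * tt σ k x z) * s1 x y + tt σ k y z * s1 x z
  have g2 : tt σ k x y * tt σ k y z * tt σ k x z * (-(tt σ k x y * tt σ k y z)) =
      - tt σ k x z := by
    linear_combination (-tt σ k y z * tt σ k y z * tt σ k x z) * s1 x y - tt σ k x z * s1 y z
  have g3 : tt σ k x y * tt σ k y z * tt σ k x z * (tt σ k x z * tt σ k y z) = tt σ k x y := by
    linear_combination (tt σ k x y * tt σ k x z * tt σ k x z) * s1 y z + tt σ k x y * s1 x z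
  rw [g1, g2, g3, neg_smul]
  abel

/-- if no Scarf face with `n + 2` vertices has label below `M`, then a chain in the image of the
differential has zero component in degree `M` -/
lemma coeff_bdry_eq_zero (M : σ →₀ ℕ) (n : ℕ)
    (hno : ∀ τ ∈ scarf m, τ.card = n + 1 + 1 → ¬ lab m τ ≤ M)
    (ρ : {τ : Finset (Fin N) // τ ∈ scarf m ∧ τ.card = n + 1}) (hρ : lab m ρ.1 ≤ M)
    (w : Chains k σ (scarf m) (n + 1)) :
    coeff (M - lab m ρ.1) ((bdry k m (scarf m) n w) ρ) = 0 := by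
  classical
  unfold bdry
  rw [Finsupp.linearCombination_apply, Finsupp.sum, Finsupp.finsetSum_apply, coeff_sum]
  refine Finset.sum_eq_zero fun τ _ => ?_
  rw [Finsupp.smul_apply, Finsupp.finsetSum_apply, smul_eq_mul, Finset.mul_sum, coeff_sum]
  refine Finset.sum_eq_zero fun j hj => ?_
  rw [Finsupp.smul_apply, smul_eq_mul]
  by_cases he : τ.1.erase j = ρ.1
  · have hb : (bas k σ (scarf m) n (τ.1.erase j)) ρ = 1 := by
      unfold bas
      rw [dif_pos (by rw [he]; exact ρ.2)]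
      have : (⟨τ.1.erase j, by rw [he]; exact ρ.2⟩ :
          {τ : Finset (Fin N) // τ ∈ scarf m ∧ τ.card = n + 1}) = ρ := Subtype.ext he
      rw [this, Finsupp.single_eq_same]
    rw [hb, mul_one, mul_left_comm]
    have hle : ¬ (lab m τ.1 - lab m (τ.1.erase j)) ≤ M - lab m ρ.1 := by
      intro hle
      refine hno τ.1 τ.2.1 τ.2.2 fun A => ?_
      have h1 := hle A
      have h2 : lab m (τ.1.erase j) ≤ lab m τ.1 := lab_mono (Finset.erase_subset _ _)
      have h3 := h2 A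
      rw [he] at h1 h3
      simp only [Finsupp.tsub_apply] at h1
      have h4 := hρ A
      omega
    rw [show ((-1 : MvPolynomial σ k) ^ (τ.1.filter (fun i => i < j)).card *
      ((w τ) * monomial (lab m τ.1 - lab m (τ.1.erase j)) 1)) =
      ((-1 : MvPolynomial σ k) ^ (τ.1.filter (fun i => i < j)).card * w τ) *
        monomial (lab m τ.1 - lab m (τ.1.erase j)) 1 by ring]
    rw [coeff_mul_monomial', if_neg hle]
  · have hb : (bas k σ (scarf m) n (τ.1.erase j)) ρ = 0 := by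
      unfold bas
      split_ifs with h
      · rw [Finsupp.single_apply, if_neg]
        intro h'
        exact he (congrArg Subtype.val h')
      · rfl
    rw [hb, mul_zero, mul_zero, coeff_zero]

/-- the coefficient of a triangle in an oriented triangle -/
lemma TT_apply_of_ne (M : σ →₀ ℕ) (x y z : Fin N)
    (ρ : {τ : Finset (Fin N) // τ ∈ scarf m ∧ τ.card = 2 + 1})
    (h : ({x, y, z} : Finset (Fin N)) ≠ ρ.1) : (TT k m M x y z) ρ = 0 := by
  unfold TT xs bas
  rw [Finsupp.smul_apply, Finsupp.smul_apply]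
  split_ifs with h'
  · rw [Finsupp.single_apply, if_neg]
    · simp
    · intro h''
      exact h (congrArg Subtype.val h'')
  · simp

/-- Five generators on which the Scarf complex is a triangulated two-sphere obstruct
exactness. -/
lemma not_exact_of_sphere (M : σ →₀ ℕ) {a b c d e : Fin N}
    (hab : a ≠ b) (hac : a ≠ c) (had : a ≠ d) (hae : a ≠ e) (hbc : b ≠ c) (hbd : b ≠ d)
    (hbe : b ≠ e) (hcd : c ≠ d) (hce : c ≠ e) (hde : d ≠ e)
    (hM : ∀ i ∈ ({a, b, c, d, e} : Finset (Fin N)), m i ≤ M)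
    (t1 : ({a, b, c} : Finset (Fin N)) ∈ scarf m) (t2 : ({b, d, c} : Finset (Fin N)) ∈ scarf m)
    (t3 : ({e, a, b} : Finset (Fin N)) ∈ scarf m) (t4 : ({e, b, d} : Finset (Fin N)) ∈ scarf m)
    (t5 : ({e, d, c} : Finset (Fin N)) ∈ scarf m) (t6 : ({e, c, a} : Finset (Fin N)) ∈ scarf m)
    (hno : ∀ τ ∈ scarf m, τ.card = 4 → ¬ lab m τ ≤ M) :
    ¬ Function.Exact (bdry k m (scarf m) 2) (bdry k m (scarf m) 1) := by
  classical
  intro hex
  have hMa : m a ≤ M := hM a (by simp)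
  have hMb : m b ≤ M := hM b (by simp)
  have hMc : m c ≤ M := hM c (by simp)
  have hMd : m d ≤ M := hM d (by simp)
  have hMe : m e ≤ M := hM e (by simp)
  have hl : ∀ x y z : Fin N, m x ≤ M → m y ≤ M → m z ≤ M → lab m {x, y, z} ≤ M := by
    intro x y z hx hy hz
    refine lab_le fun i hi => ?_
    simp only [Finset.mem_insert, Finset.mem_singleton] at hi
    rcases hi with rfl | rfl | rfl <;> assumption
  set z : Chains k σ (scarf m) 2 := TT k m M a b c + TT k m M b d c - TT k m M e a b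
    - TT k m M e b d - TT k m M e d c - TT k m M e c a with hz
  have hdz : bdry k m (scarf m) 1 z = 0 := by
    rw [hz]
    simp only [map_add, map_sub]
    rw [bdry_TT M hab hbc hac t1 (hl _ _ _ hMa hMb hMc),
      bdry_TT M hbd hcd.symm hbc t2 (hl _ _ _ hMb hMd hMc),
      bdry_TT M hae.symm hab hbe.symm t3 (hl _ _ _ hMe hMa hMb),
      bdry_TT M hbe.symm hbd hde.symm t4 (hl _ _ _ hMe hMb hMd),
      bdry_TT M hde.symm hcd.symm hce.symm t5 (hl _ _ _ hMe hMd hMc),
      bdry_TT M hce.symm hac.symm hae.symm t6 (hl _ _ _ hMe hMc hMa)]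
    rw [EE_swap M hac]
    abel
  obtain ⟨w, hw⟩ := (hex z).1 hdz
  have hc1 : ({a, b, c} : Finset (Fin N)).card = 2 + 1 := by
    rw [Finset.card_insert_of_notMem (by simp [hab, hac]), Finset.card_pair hbc]
  set ρ : {τ : Finset (Fin N) // τ ∈ scarf m ∧ τ.card = 2 + 1} := ⟨{a, b, c}, t1, hc1⟩ with hρ
  have h0 := coeff_bdry_eq_zero (k := k) M 2 (fun τ h1 h2 => hno τ h1 h2) ρ
    (hl _ _ _ hMa hMb hMc) w
  rw [hw] at h0
  have hne : ∀ x y z : Fin N, (x = d ∨ y = d ∨ z = d ∨ x = e ∨ y = e ∨ z = e) →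
      (TT k m M x y z) ρ = 0 := by
    intro x y z h
    refine TT_apply_of_ne M x y z ρ ?_
    intro h1
    have h2 : ∀ i, i ∈ ({x, y, z} : Finset (Fin N)) ↔ i ∈ ({a, b, c} : Finset (Fin N)) := by
      intro i; rw [h1]
    have hd : d ∉ ({a, b, c} : Finset (Fin N)) := by
      simp [had.symm, hbd.symm, hcd.symm]
    have he : e ∉ ({a, b, c} : Finset (Fin N)) := by
      simp [hae.symm, hbe.symm, hce.symm]
    rcases h with h | h | h | h | h | h
    · exact hd ((h2 d).1 (by simp [h]))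
    · exact hd ((h2 d).1 (by simp [h]))
    · exact hd ((h2 d).1 (by simp [h]))
    · exact he ((h2 e).1 (by simp [h]))
    · exact he ((h2 e).1 (by simp [h]))
    · exact he ((h2 e).1 (by simp [h]))
  have hzρ : z ρ = (tt σ k a b * tt σ k b c * tt σ k a c) *
      monomial (M - lab m {a, b, c}) 1 := by
    rw [hz]
    simp only [Finsupp.sub_apply, Finsupp.add_apply]
    rw [hne b d c (by tauto), hne e a b (by tauto), hne e b d (by tauto), hne e d c (by tauto),
      hne e c a (by tauto)]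
    unfold TT xs bas
    rw [dif_pos ⟨t1, hc1⟩, Finsupp.smul_apply, Finsupp.smul_apply, Finsupp.single_eq_same]
    simp
  rw [hzρ] at h0
  have htt : ∀ x y : Fin N, tt σ k x y = 1 ∨ tt σ k x y = -1 := by
    intro x y; unfold tt; split_ifs <;> simp
  have hρ1 : lab m ρ.1 = lab m {a, b, c} := rfl
  rw [hρ1] at h0
  rcases htt a b with h1 | h1 <;> rcases htt b c with h2 | h2 <;> rcases htt a c with h3 | h3 <;>
    simp [h1, h2, h3] at h0

end strand

/-! ### The minimal generators of the powers -/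

section gens

/-- the exponent vector of `ε^a` -/
noncomputable def expo {q : ℕ} (a : Fin q → ℕ) : Var q →₀ ℕ :=
  Finsupp.equivFunOnFinite.symm (fun A => ∑ i ∈ A.1, a i)

lemma expo_apply {q : ℕ} (a : Fin q → ℕ) (A : Var q) : expo a A = ∑ i ∈ A.1, a i := rfl

lemma expo_add {q : ℕ} (a b : Fin q → ℕ) : expo (a + b) = expo a + expo b := by
  ext A
  simp [expo_apply, Finset.sum_add_distrib]

lemma expo_zero {q : ℕ} : expo (0 : Fin q → ℕ) = 0 := by
  ext A
  simp [expo_apply]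

lemma expo_le {q : ℕ} {a b : Fin q → ℕ} (h : expo a ≤ expo b) (i : Fin q) : a i ≤ b i := by
  have := h ⟨{i}, by simp⟩
  simpa [expo_apply] using this

lemma eq_of_expo_le {q : ℕ} {a b : Fin q → ℕ} (h : expo a ≤ expo b)
    (hs : ∑ i, b i ≤ ∑ i, a i) : a = b := by
  have h1 := expo_le h
  have h2 : ∑ i, a i = ∑ i, b i := le_antisymm (Finset.sum_le_sum fun i _ => h1 i) hs
  funext i
  exact (Finset.sum_eq_sum_iff_of_le fun i _ => h1 i).1 h2 i (Finset.mem_univ i)

variable (k : Type u) [Field k]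

lemma eps_eq {q : ℕ} (i : Fin q) : eps k q i = monomial (expo (Pi.single i 1)) 1 := by
  classical
  unfold eps
  have h1 : ∀ A : Var q, (X A : MvPolynomial (Var q) k) = monomial (Finsupp.single A 1) 1 :=
    fun A => rfl
  simp_rw [h1]
  rw [← monomial_sum_one]
  refine congrArg (fun s => monomial s (1 : k)) ?_
  ext B
  rw [Finsupp.finsetSum_apply, expo_apply]
  simp only [Finsupp.single_apply]
  rw [Finset.sum_ite_eq']
  simp only [Finset.mem_filter, Finset.mem_univ, true_and, Finset.sum_pi_single']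

lemma pow_eq (q r : ℕ) : (extremalIdeal k q) ^ r =
    Ideal.span ((fun s => monomial s (1 : k)) ''
      {u : Var q →₀ ℕ | ∃ a : Fin q → ℕ, ∑ i, a i = r ∧ u = expo a}) := by
  classical
  induction r with
  | zero =>
    rw [pow_zero, Ideal.one_eq_top, eq_comm, Ideal.eq_top_iff_one]
    refine Ideal.subset_span ⟨0, ⟨0, by simp, expo_zero.symm⟩, ?_⟩
    simp
  | succ r ih =>
    rw [pow_succ, ih]
    unfold extremalIdeal
    rw [Ideal.span_mul_span']
    congr 1
    ext x
    rw [Set.mem_mul]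
    constructor
    · rintro ⟨_, ⟨_, ⟨a, ha, rfl⟩, rfl⟩, _, ⟨i, rfl⟩, rfl⟩
      refine ⟨_, ⟨a + Pi.single i 1, ?_, rfl⟩, ?_⟩
      · simp [Finset.sum_add_distrib, ha]
      · simp only
        rw [eps_eq, monomial_mul, one_mul, expo_add]
    · rintro ⟨_, ⟨a, ha, rfl⟩, rfl⟩
      have : ∃ i, a i ≠ 0 := by
        by_contra hcon
        push Not at hcon
        simp [hcon] at ha
      obtain ⟨i, hi⟩ := this
      have hdec : a = (a - Pi.single i 1) + Pi.single i 1 := by
        funext j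
        by_cases hj : j = i
        · subst hj; simp; omega
        · simp [Pi.single_eq_of_ne hj]
      refine ⟨_, ⟨_, ⟨a - Pi.single i 1, ?_, rfl⟩, rfl⟩, _, ⟨i, rfl⟩, ?_⟩
      · have h1 : ∑ j, a j = ∑ j, (a - Pi.single i 1 : Fin q → ℕ) j +
            ∑ j, (Pi.single i 1 : Fin q → ℕ) j := by
          rw [← Finset.sum_add_distrib]
          exact Finset.sum_congr rfl fun j _ => congrFun hdec j
        simp at h1
        simp only [Pi.sub_apply]
        omega
      · simp only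
        rw [eps_eq, monomial_mul, one_mul, ← expo_add, ← hdec]

lemma mem_pow_iff (q r : ℕ) (u : Var q →₀ ℕ) :
    monomial u (1 : k) ∈ (extremalIdeal k q) ^ r ↔
      ∃ a : Fin q → ℕ, ∑ i, a i = r ∧ expo a ≤ u := by
  classical
  rw [pow_eq, mem_ideal_span_monomial_image]
  rw [support_monomial, if_neg one_ne_zero]
  simp only [Finset.mem_singleton, forall_eq]
  constructor
  · rintro ⟨_, ⟨a, ha, rfl⟩, h⟩; exact ⟨a, ha, h⟩
  · rintro ⟨a, ha, h⟩; exact ⟨_, ⟨a, ha, rfl⟩, h⟩

lemma isMinGen_iff (q r : ℕ) (u : Var q →₀ ℕ) :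
    IsMinGen k ((extremalIdeal k q) ^ r) u ↔ ∃ a : Fin q → ℕ, ∑ i, a i = r ∧ u = expo a := by
  constructor
  · rintro ⟨h1, h2⟩
    obtain ⟨a, ha, hle⟩ := (mem_pow_iff k q r u).1 h1
    exact ⟨a, ha, (h2 _ ((mem_pow_iff k q r _).2 ⟨a, ha, le_refl _⟩) hle).symm⟩
  · rintro ⟨a, ha, rfl⟩
    refine ⟨(mem_pow_iff k q r _).2 ⟨a, ha, le_refl _⟩, fun w hw hle => ?_⟩
    obtain ⟨b, hb, hle2⟩ := (mem_pow_iff k q r w).1 hw
    have : b = a := eq_of_expo_le (hle2.trans hle) (by omega)
    subst this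
    exact le_antisymm hle hle2

lemma exists_enumerates (q r : ℕ) : ∃ (N : ℕ) (m : Fin N → (Var q →₀ ℕ)),
    Enumerates k ((extremalIdeal k q) ^ r) m := by
  classical
  have hfin : {u : Var q →₀ ℕ | IsMinGen k ((extremalIdeal k q) ^ r) u}.Finite := by
    have h1 : {a : Fin q → ℕ | ∑ i, a i = r}.Finite := by
      refine (Set.finite_Iic (fun _ : Fin q => r)).subset fun a ha i => ?_
      have h2 := Finset.single_le_sum (f := a) (fun j _ => Nat.zero_le _) (Finset.mem_univ i)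
      have h3 : ∑ i, a i = r := ha
      exact h2.trans h3.le
    refine (h1.image expo).subset fun u hu => ?_
    obtain ⟨a, ha, rfl⟩ := (isMinGen_iff k q r u).1 hu
    exact ⟨a, ha, rfl⟩
  refine ⟨hfin.toFinset.card, fun i => (hfin.toFinset.equivFin.symm i).1, ?_, ?_⟩
  · intro i j hij
    exact hfin.toFinset.equivFin.symm.injective (Subtype.ext hij)
  · ext u
    constructor
    · rintro ⟨i, rfl⟩
      have := (hfin.toFinset.equivFin.symm i).2
      exact (Set.Finite.mem_toFinset hfin).1 this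
    · intro hu
      have hu' : u ∈ hfin.toFinset := (Set.Finite.mem_toFinset hfin).2 hu
      exact ⟨hfin.toFinset.equivFin ⟨u, hu'⟩, by simp⟩

end gens

/-! ### The five generators -/

section five

/-- the five exponents `000113`, `010112`, `100112`, `110111`, `221000` -/
def P0 : Fin 5 → Fin 6 → ℕ :=
  ![![0, 0, 0, 1, 1, 3], ![0, 1, 0, 1, 1, 2], ![1, 0, 0, 1, 1, 2], ![1, 1, 0, 1, 1, 1],
    ![2, 2, 1, 0, 0, 0]]

/-- the five exponents shifted by `t` in the first coordinate, with `s` further zeros -/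
def pt (s t : ℕ) (x : Fin 5) : Fin (6 + s) → ℕ :=
  Fin.append (fun j => P0 x j + if j = 0 then t else 0) (fun _ => 0)

lemma pt_sum (s t : ℕ) (x : Fin 5) : ∑ i, pt s t x i = 5 + t := by
  rw [Fin.sum_univ_add]
  simp only [pt, Fin.append_left, Fin.append_right, Finset.sum_const_zero, add_zero]
  rw [Finset.sum_add_distrib, Finset.sum_ite_eq']
  have : ∀ x : Fin 5, ∑ j, P0 x j = 5 := by decide
  simp [this x]

lemma expo_pt (s t : ℕ) (x : Fin 5) (A : Var (6 + s)) :
    expo (pt s t x) A =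
      ∑ j : Fin 6, if Fin.castAdd s j ∈ A.1 then (P0 x j + if j = 0 then t else 0) else 0 := by
  have h : ∑ i ∈ A.1, pt s t x i = ∑ i, if i ∈ A.1 then pt s t x i else 0 := by
    rw [Finset.sum_ite_mem, Finset.univ_inter]
  rw [expo_apply, h, Fin.sum_univ_add]
  simp only [pt, Fin.append_left, Fin.append_right, ite_self, Finset.sum_const_zero, add_zero]

/-- subsets of `[6]` as subsets of `[6 + s]` -/
def sub (s : ℕ) (B : Finset (Fin 6)) (hB : B.Nonempty) : Var (6 + s) :=
  ⟨B.map (Fin.castAddEmb s), hB.map⟩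

lemma expo_sub (s : ℕ) (p : Fin (6 + s) → ℕ) (B : Finset (Fin 6)) (hB : B.Nonempty) :
    expo p (sub s B hB) = ∑ j ∈ B, p (Fin.castAdd s j) := by
  rw [expo_apply]
  simp [sub, Finset.sum_map]

lemma expo_pt_sub (s t : ℕ) (x : Fin 5) (B : Finset (Fin 6)) (hB : B.Nonempty) :
    expo (pt s t x) (sub s B hB) = ∑ j ∈ B, P0 x j + if 0 ∈ B then t else 0 := by
  rw [expo_sub]
  simp only [pt, Fin.append_left]
  rw [Finset.sum_add_distrib, Finset.sum_ite_eq']

variable {N : ℕ}

lemma exists_index {s t : ℕ} {m : Fin N → (Var (6 + s) →₀ ℕ)} {k : Type u} [Field k]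
    (hm : Enumerates k ((extremalIdeal k (6 + s)) ^ (5 + t)) m) :
    ∃ I : Fin 5 → Fin N, ∀ x, m (I x) = expo (pt s t x) := by
  have : ∀ x, ∃ i, m i = expo (pt s t x) := by
    intro x
    have h1 : expo (pt s t x) ∈ Set.range m := by
      rw [hm.2]
      exact (isMinGen_iff k _ _ _).2 ⟨_, pt_sum s t x, rfl⟩
    exact h1
  choose I hI using this
  exact ⟨I, hI⟩

/-- a separating subset shows that a generator does not divide a least common multiple -/
lemma not_le_lab {s t : ℕ} {m : Fin N → (Var (6 + s) →₀ ℕ)} {I : Fin 5 → Fin N}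
    (hI : ∀ x, m (I x) = expo (pt s t x)) (T : Finset (Fin 5)) (x : Fin 5) (B : Finset (Fin 6))
    (hB : B.Nonempty) (hTn : T.Nonempty) (hT : ∀ y ∈ T, ∑ j ∈ B, P0 y j < ∑ j ∈ B, P0 x j) (τ : Finset (Fin N))
    (hτ : ∀ i ∈ τ, ∃ y ∈ T, i = I y) : ¬ m (I x) ≤ lab m τ := by
  intro hle
  have h1 := hle (sub s B hB)
  rw [hI, expo_pt_sub] at h1
  have h2 : lab m τ (sub s B hB) ≤ (∑ j ∈ B, P0 x j - 1) + if 0 ∈ B then t else 0 := by
    refine lab_apply_le fun i hi => ?_
    obtain ⟨y, hy, rfl⟩ := hτ i hi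
    rw [hI, expo_pt_sub]
    have := hT y hy
    omega
  have h3 : 1 ≤ ∑ j ∈ B, P0 x j := by
    obtain ⟨y, hy⟩ := hTn
    have := hT y hy
    omega
  omega

/-- upper bound on subset sums of a generator dividing the least common multiple of the five -/
lemma sub_bound {s t : ℕ} {m : Fin N → (Var (6 + s) →₀ ℕ)} {I : Fin 5 → Fin N}
    (hI : ∀ x, m (I x) = expo (pt s t x)) (p : Fin (6 + s) → ℕ) (τ : Finset (Fin N))
    (hτ : ∀ i ∈ τ, ∃ y, i = I y) (hp : expo p ≤ lab m τ) (B : Finset (Fin 6))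
    (hB : B.Nonempty) (n : ℕ) (hn : ∀ y, ∑ j ∈ B, P0 y j ≤ n) :
    ∑ j ∈ B, p (Fin.castAdd s j) ≤ n + if 0 ∈ B then t else 0 := by
  have h1 := hp (sub s B hB)
  rw [expo_sub] at h1
  refine h1.trans (lab_apply_le fun i hi => ?_)
  obtain ⟨y, rfl⟩ := hτ i hi
  rw [hI, expo_pt_sub]
  have := hn y
  omega

lemma closure_five {s t : ℕ} {m : Fin N → (Var (6 + s) →₀ ℕ)} {I : Fin 5 → Fin N}
    (hI : ∀ x, m (I x) = expo (pt s t x)) (p : Fin (6 + s) → ℕ) (hsum : ∑ i, p i = 5 + t)
    (τ : Finset (Fin N)) (hτ : ∀ i ∈ τ, ∃ y, i = I y) (hp : expo p ≤ lab m τ) :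
    ∃ x, p = pt s t x := by
  have hz : ∀ j : Fin s, p (Fin.natAdd 6 j) = 0 := by
    intro j
    have h1 := hp ⟨{Fin.natAdd 6 j}, by simp⟩
    rw [expo_apply, Finset.sum_singleton] at h1
    refine Nat.le_zero.1 (h1.trans (lab_apply_le fun i hi => ?_))
    obtain ⟨y, rfl⟩ := hτ i hi
    rw [hI, expo_apply, Finset.sum_singleton]
    simp [pt]
  have b1 := sub_bound hI p τ hτ hp {2, 3} (by simp) 1 (by decide)
  have b2 := sub_bound hI p τ hτ hp {0, 1, 4, 5} (by simp) 4 (by decide)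
  have b3 := sub_bound hI p τ hτ hp {2, 4} (by simp) 1 (by decide)
  have b4 := sub_bound hI p τ hτ hp {0, 1, 3, 5} (by simp) 4 (by decide)
  have b5 := sub_bound hI p τ hτ hp {0, 2, 5} (by simp) 3 (by decide)
  have b6 := sub_bound hI p τ hτ hp {1, 3} (by simp) 2 (by decide)
  have b7 := sub_bound hI p τ hτ hp {0, 3} (by simp) 2 (by decide)
  have b8 := sub_bound hI p τ hτ hp {1, 2, 5} (by simp) 3 (by decide)
  rw [Fin.sum_univ_add, Fin.sum_univ_six] at hsum
  simp only [hz, Finset.sum_const_zero, add_zero] at hsum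
  simp at b1 b2 b3 b4 b5 b6 b7 b8
  have heq : ∀ x : Fin 5, (∀ j : Fin 6, p (Fin.castAdd s j) = P0 x j + if j = 0 then t else 0) →
      p = pt s t x := by
    intro x hx
    funext i
    refine Fin.addCases (fun j => ?_) (fun j => ?_) i
    · rw [hx j]; simp [pt]
    · rw [hz j]; simp [pt]
  have key : ∃ x : Fin 5, ∀ j : Fin 6,
      p (Fin.castAdd s j) = P0 x j + if j = 0 then t else 0 := by
    have hcases : (p (Fin.castAdd s 0) = 0 + t ∧ p (Fin.castAdd s 1) = 0 ∧ p (Fin.castAdd s 2) = 0 ∧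
          p (Fin.castAdd s 3) = 1 ∧ p (Fin.castAdd s 4) = 1 ∧ p (Fin.castAdd s 5) = 3) ∨
        (p (Fin.castAdd s 0) = 0 + t ∧ p (Fin.castAdd s 1) = 1 ∧ p (Fin.castAdd s 2) = 0 ∧
          p (Fin.castAdd s 3) = 1 ∧ p (Fin.castAdd s 4) = 1 ∧ p (Fin.castAdd s 5) = 2) ∨
        (p (Fin.castAdd s 0) = 1 + t ∧ p (Fin.castAdd s 1) = 0 ∧ p (Fin.castAdd s 2) = 0 ∧
          p (Fin.castAdd s 3) = 1 ∧ p (Fin.castAdd s 4) = 1 ∧ p (Fin.castAdd s 5) = 2) ∨
        (p (Fin.castAdd s 0) = 1 + t ∧ p (Fin.castAdd s 1) = 1 ∧ p (Fin.castAdd s 2) = 0 ∧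
          p (Fin.castAdd s 3) = 1 ∧ p (Fin.castAdd s 4) = 1 ∧ p (Fin.castAdd s 5) = 1) ∨
        (p (Fin.castAdd s 0) = 2 + t ∧ p (Fin.castAdd s 1) = 2 ∧ p (Fin.castAdd s 2) = 1 ∧
          p (Fin.castAdd s 3) = 0 ∧ p (Fin.castAdd s 4) = 0 ∧ p (Fin.castAdd s 5) = 0) := by
      omega
    rcases hcases with h | h | h | h | h
    · refine ⟨0, fun j => ?_⟩
      obtain ⟨h0, h1, h2, h3, h4, h5⟩ := h
      fin_cases j <;> simp [P0, h0, h1, h2, h3, h4, h5]
    · refine ⟨1, fun j => ?_⟩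
      obtain ⟨h0, h1, h2, h3, h4, h5⟩ := h
      fin_cases j <;> simp [P0, h0, h1, h2, h3, h4, h5]
    · refine ⟨2, fun j => ?_⟩
      obtain ⟨h0, h1, h2, h3, h4, h5⟩ := h
      fin_cases j <;> simp [P0, h0, h1, h2, h3, h4, h5]
    · refine ⟨3, fun j => ?_⟩
      obtain ⟨h0, h1, h2, h3, h4, h5⟩ := h
      fin_cases j <;> simp [P0, h0, h1, h2, h3, h4, h5]
    · refine ⟨4, fun j => ?_⟩
      obtain ⟨h0, h1, h2, h3, h4, h5⟩ := h
      fin_cases j <;> simp [P0, h0, h1, h2, h3, h4, h5]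
  obtain ⟨x, hx⟩ := key
  exact ⟨x, heq x hx⟩

lemma scarf_tri {s t : ℕ} {m : Fin N → (Var (6 + s) →₀ ℕ)} {k : Type u} [Field k]
    (hm : Enumerates k ((extremalIdeal k (6 + s)) ^ (5 + t)) m) {I : Fin 5 → Fin N}
    (hI : ∀ x, m (I x) = expo (pt s t x)) (T : Finset (Fin 5)) (hT : 2 ≤ T.card)
    (W : Fin 5 → Finset (Fin 6)) (hW : ∀ x, (W x).Nonempty)
    (hsep : ∀ x, ∀ y ∈ T.erase x, ∑ j ∈ W x, P0 y j < ∑ j ∈ W x, P0 x j)
    (τ : Finset (Fin N)) (hτ : ∀ i, i ∈ τ ↔ ∃ y ∈ T, i = I y) : τ ∈ scarf m := by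
  classical
  have hTe : ∀ x, (T.erase x).Nonempty := by
    intro x
    rw [← Finset.card_pos]
    have := Finset.pred_card_le_card_erase (s := T) (a := x)
    omega
  refine scarf_of ?_ (fun i hi => ?_) (fun i hi hle => ?_)
  · obtain ⟨y, hy⟩ := hTe 0
    exact ⟨I y, (hτ _).2 ⟨y, Finset.mem_of_mem_erase hy, rfl⟩⟩
  · have h1 : m i ∈ Set.range m := ⟨i, rfl⟩
    rw [hm.2] at h1
    obtain ⟨p, hps, hp⟩ := (isMinGen_iff k _ _ _).1 h1
    rw [hp] at hi
    obtain ⟨x, hx⟩ := closure_five hI p hps τ (fun i hi => by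
      obtain ⟨y, _, h⟩ := (hτ i).1 hi; exact ⟨y, h⟩) hi
    have h2 : i = I x := hm.1 (by rw [hp, hI, hx])
    by_contra hni
    have hxT : x ∉ T := fun h => hni ((hτ i).2 ⟨x, h, h2⟩)
    have h3 := not_le_lab hI (T.erase x) x (W x) (hW x) (hTe x) (hsep x) τ (fun i hi => by
      obtain ⟨y, hy, h⟩ := (hτ i).1 hi
      exact ⟨y, Finset.mem_erase.2 ⟨fun e => hxT (e ▸ hy), hy⟩, h⟩)
    apply h3
    rw [hI, ← hx]; exact hi
  · obtain ⟨x, hx, rfl⟩ := (hτ i).1 hi
    refine not_le_lab hI (T.erase x) x (W x) (hW x) (hTe x) (hsep x) (τ.erase (I x))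
      (fun i hi => ?_) hle
    obtain ⟨h4, h5⟩ := Finset.mem_erase.1 hi
    obtain ⟨y, hy, h⟩ := (hτ i).1 h5
    exact ⟨y, Finset.mem_erase.2 ⟨fun e => h4 (by rw [h, e]), hy⟩, h⟩

lemma le_of_two {s t : ℕ} {m : Fin N → (Var (6 + s) →₀ ℕ)} {I : Fin 5 → Fin N}
    (hI : ∀ x, m (I x) = expo (pt s t x)) (τ : Finset (Fin N)) (h0 : I 0 ∈ τ) (h3 : I 3 ∈ τ) :
    m (I 1) ≤ lab m τ := by
  intro A
  have a0 := (le_lab (m := m) h0) A
  have a3 := (le_lab (m := m) h3) A
  rw [hI, expo_pt, Fin.sum_univ_six] at a0 a3 ⊢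
  simp [P0] at a0 a3 ⊢
  split_ifs at * <;> omega

lemma le_of_three {s t : ℕ} {m : Fin N → (Var (6 + s) →₀ ℕ)} {I : Fin 5 → Fin N}
    (hI : ∀ x, m (I x) = expo (pt s t x)) (τ : Finset (Fin N)) (h1 : I 1 ∈ τ) (h2 : I 2 ∈ τ)
    (h4 : I 4 ∈ τ) : m (I 3) ≤ lab m τ := by
  intro A
  have a1 := (le_lab (m := m) h1) A
  have a2 := (le_lab (m := m) h2) A
  have a4 := (le_lab (m := m) h4) A
  rw [hI, expo_pt, Fin.sum_univ_six] at a1 a2 a4 ⊢
  simp [P0] at a1 a2 a4 ⊢
  split_ifs at * <;> omega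

/-- the witnesses for the six triangles -/
def wit : Fin 6 → Fin 5 → Finset (Fin 6) :=
  ![![{5}, {1}, {0}, {0, 1}, {0, 1}],
    ![{5}, {1, 5}, {0, 5}, {0, 1}, {0, 1}],
    ![{5}, {1, 3, 4}, {0, 3, 4}, {0, 3, 4}, {0, 1}],
    ![{5}, {1, 5}, {0, 5}, {0, 3, 4}, {0, 1}],
    ![{5}, {1, 5}, {0, 5}, {1, 3, 4}, {0, 1}],
    ![{5}, {1, 3, 4}, {0, 3, 4}, {1, 3, 4}, {0, 1}]]

/-- the six triangles -/
def tri : Fin 6 → Finset (Fin 5) :=
  ![{0, 1, 2}, {1, 3, 2}, {4, 0, 1}, {4, 1, 3}, {4, 3, 2}, {4, 2, 0}]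

lemma wit_ne : ∀ n x, (wit n x).Nonempty := by decide

lemma tri_card : ∀ n, 2 ≤ (tri n).card := by decide

lemma wit_sep : ∀ n x, ∀ y ∈ (tri n).erase x, ∑ j ∈ wit n x, P0 y j < ∑ j ∈ wit n x, P0 x j := by
  decide

lemma P0_inj : ∀ x y : Fin 5, (∀ j : Fin 6, P0 x j = P0 y j) → x = y := by decide

lemma four_of_five : ∀ T : Finset (Fin 5), T.card = 4 →
    (0 ∈ T ∧ 3 ∈ T) ∨ (1 ∈ T ∧ 2 ∈ T ∧ 4 ∈ T) := by decide

end five

/-- For `q ≥ 6` and `r ≥ 5`, the Scarf complex of the `r`-th power of the extremal ideal on `q`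
generators does not support a free resolution of it. -/
theorem result (k : Type u) [Field k] (q r : ℕ) (hq : 6 ≤ q) (hr : 5 ≤ r) :
    (∃ (N : ℕ) (m : Fin N → (Var q →₀ ℕ)), Enumerates k ((extremalIdeal k q) ^ r) m) ∧
    ∀ (N : ℕ) (m : Fin N → (Var q →₀ ℕ)), Enumerates k ((extremalIdeal k q) ^ r) m →
      ¬ SupportsResolution k m (scarf m) ((extremalIdeal k q) ^ r) := by
  classical
  refine ⟨exists_enumerates k q r, ?_⟩
  obtain ⟨s, rfl⟩ := Nat.exists_eq_add_of_le hq
  obtain ⟨t, rfl⟩ := Nat.exists_eq_add_of_le hr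
  intro N m hm hS
  obtain ⟨I, hI⟩ := exists_index hm
  have hinj : Function.Injective I := by
    intro x y hxy
    have h1 : expo (pt s t x) = expo (pt s t y) := by rw [← hI, ← hI, hxy]
    have h2 : ∀ j : Fin 6, P0 x j = P0 y j := by
      intro j
      have h3 := DFunLike.congr_fun h1 (sub s {j} (by simp))
      rw [expo_pt_sub, expo_pt_sub] at h3
      simpa using h3
    exact P0_inj x y h2
  have T : ∀ (n : Fin 6) (x y z : Fin 5), tri n = {x, y, z} →
      ({I x, I y, I z} : Finset (Fin N)) ∈ scarf m := by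
    intro n x y z h
    refine scarf_tri hm hI (tri n) (tri_card n) (wit n) (wit_ne n) (wit_sep n) _ fun i => ?_
    rw [h]
    simp
  refine not_exact_of_sphere (k := k) (lab m (univ.map ⟨I, hinj⟩)) (a := I 0) (b := I 1)
    (c := I 2) (d := I 3) (e := I 4)
    (hinj.ne (by decide)) (hinj.ne (by decide)) (hinj.ne (by decide)) (hinj.ne (by decide))
    (hinj.ne (by decide)) (hinj.ne (by decide)) (hinj.ne (by decide)) (hinj.ne (by decide))
    (hinj.ne (by decide)) (hinj.ne (by decide)) ?_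
    (T 0 0 1 2 rfl) (T 1 1 3 2 rfl) (T 2 4 0 1 rfl) (T 3 4 1 3 rfl) (T 4 4 3 2 rfl)
    (T 5 4 2 0 rfl) ?_ (hS.2.2 1)
  · intro i hi
    refine le_lab ?_
    simp only [Finset.mem_insert, Finset.mem_singleton] at hi
    rcases hi with rfl | rfl | rfl | rfl | rfl <;> simp
  · intro τ hτ hc hle
    have hsub : ∀ i ∈ τ, ∃ y, i = I y := by
      intro i hi
      have h1 : m i ∈ Set.range m := ⟨i, rfl⟩
      rw [hm.2] at h1
      obtain ⟨p, hps, hp⟩ := (isMinGen_iff k _ _ _).1 h1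
      have h2 : expo p ≤ lab m (univ.map ⟨I, hinj⟩) := by
        rw [← hp]; exact (le_lab hi).trans hle
      obtain ⟨x, hx⟩ := closure_five hI p hps _ (fun i hi => by
        simp at hi
        obtain ⟨y, hy⟩ := hi
        exact ⟨y, hy.symm⟩) h2
      exact ⟨x, hm.1 (by rw [hp, hI, hx])⟩
    set T' : Finset (Fin 5) := univ.filter (fun x => I x ∈ τ) with hT'
    have hTτ : T'.map ⟨I, hinj⟩ = τ := by
      ext i
      simp only [Finset.mem_map, Function.Embedding.coeFn_mk, hT', Finset.mem_filter,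
        Finset.mem_univ, true_and]
      constructor
      · rintro ⟨x, hx, rfl⟩; exact hx
      · intro hi
        obtain ⟨y, rfl⟩ := hsub i hi
        exact ⟨y, hi, rfl⟩
    have hT'c : T'.card = 4 := by
      rw [← hc, ← hTτ, Finset.card_map]
    have hmem : ∀ x, I x ∈ τ ↔ x ∈ T' := by intro x; simp [hT']
    have hcases := four_of_five T' hT'c
    rcases hcases with ⟨h0, h3⟩ | ⟨h1, h2, h4⟩
    · have h0' := (hmem 0).2 h0
      have h3' := (hmem 3).2 h3
      by_cases h1 : I 1 ∈ τ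
      · refine not_scarf_erase h1 h0' (hinj.ne (by decide)) (le_of_two hI _ ?_ ?_) hτ
        · exact Finset.mem_erase.2 ⟨hinj.ne (by decide), h0'⟩
        · exact Finset.mem_erase.2 ⟨hinj.ne (by decide), h3'⟩
      · exact not_scarf_insert h1 (le_of_two hI _ h0' h3') hτ
    · have h1' := (hmem 1).2 h1
      have h2' := (hmem 2).2 h2
      have h4' := (hmem 4).2 h4
      by_cases h3 : I 3 ∈ τ
      · refine not_scarf_erase h3 h1' (hinj.ne (by decide)) (le_of_three hI _ ?_ ?_ ?_) hτ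
        · exact Finset.mem_erase.2 ⟨hinj.ne (by decide), h1'⟩
        · exact Finset.mem_erase.2 ⟨hinj.ne (by decide), h2'⟩
        · exact Finset.mem_erase.2 ⟨hinj.ne (by decide), h4'⟩
      · exact not_scarf_insert h3 (le_of_three hI _ h1' h2' h4') hτ

end Pool.Agent.Results.MP_0a8151_al.ScarfFails
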